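import Pool.Agent.Run7.h356.LP.Stm

/-!
# Project LP (MP_85210c_gt), piece FOUR: Fourier series of the generalised cosine
-/

set_option autoImplicit false

noncomputable section

open MeasureTheory Filter Topology Set
open scoped BigOperators ENNReal

namespace Run7.h882.LP

open H356LP

/-! ### Signed powers -/

theorem sp_eq (r x : ℝ) : sp r x = x * |x| ^ (r - 1) := by
  unfold sp
  rcases eq_or_ne x 0 with rfl | hx
  · simp
  have h : 0 < |x| := abs_pos.2 hx
  have e : |x| ^ r = |x| * |x| ^ (r - 1) := by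
    rw [mul_comm, ← Real.rpow_add_one h.ne']
    congr 1
    ring
  have e2 : Real.sign x * |x| = x := by
    rcases lt_or_gt_of_ne hx with h | h
    · rw [Real.sign_of_neg h, abs_of_neg h]; ring
    · rw [Real.sign_of_pos h, abs_of_pos h]; ring
  rw [e, ← mul_assoc, e2]

theorem sp_cont {r : ℝ} (hr : 0 < r) : Continuous (sp r) := by
  have e : sp r = fun x => max x 0 ^ r - max (-x) 0 ^ r := by
    funext x
    unfold sp
    rcases lt_trichotomy x 0 with h | rfl | h
    · rw [Real.sign_of_neg h, abs_of_neg h, max_eq_right h.le, max_eq_left (by linarith),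
        Real.zero_rpow hr.ne']
      ring
    · simp
    · rw [Real.sign_of_pos h, abs_of_pos h, max_eq_left h.le, max_eq_right (by linarith),
        Real.zero_rpow hr.ne']
      ring
  rw [e]
  exact ((continuous_id.max continuous_const).rpow_const (fun _ => Or.inr hr.le)).sub
    ((continuous_neg.max continuous_const).rpow_const (fun _ => Or.inr hr.le))

theorem sp_deriv {r : ℝ} (hr : 1 < r) (x : ℝ) : HasDerivAt (sp r) (r * |x| ^ (r - 1)) x := by
  have hc : Continuous fun x : ℝ => r * |x| ^ (r - 1) :=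
    continuous_const.mul (continuous_abs.rpow_const fun _ => Or.inr (by linarith))
  refine hasDerivAt_of_hasDerivAt_of_ne' (f := sp r) (g := fun x => r * |x| ^ (r - 1)) (x := 0) ?_
    (sp_cont (by linarith)).continuousAt hc.continuousAt x
  intro y hy
  have e : sp r = fun x => x * |x| ^ (r - 1) := funext (sp_eq r)
  rw [e]
  have h1 := (hasDerivAt_abs hy).rpow_const (p := r - 1) (Or.inl (abs_ne_zero.2 hy))
  have h2 := (hasDerivAt_id y).mul h1
  refine h2.congr_deriv ?_
  have h3 : 0 < |y| := abs_pos.2 hy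
  have e2 : |y| ^ (r - 1) = |y| * |y| ^ (r - 1 - 1) := by
    rw [mul_comm, ← Real.rpow_add_one h3.ne']
    congr 1
    ring
  have e3 : y * ((SignType.sign y : ℝ)) = |y| := by
    rcases lt_or_gt_of_ne hy with h | h
    · rw [sign_neg h, abs_of_neg h]; simp
    · rw [sign_pos h, abs_of_pos h]; simp
  simp only [id]
  rw [e2]
  linear_combination (r - 1) * |y| ^ (r - 1 - 1) * e3

/-! ### Fourier series of a `C²` periodic function -/

/-- the Fourier coefficients -/
def Cf (c : ℝ → ℝ) (n : ℤ) : ℂ := fourierCoeffOn Real.two_pi_pos (fun x => (c x : ℂ)) n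

theorem Cf_eq (c : ℝ → ℝ) (n : ℤ) : Cf c n = (1 / (2 * Real.pi) : ℝ) •
    ∫ x in (0 : ℝ)..2 * Real.pi, Complex.exp (-(Complex.I * n * x)) * (c x : ℂ) := by
  unfold Cf
  rw [fourierCoeffOn_eq_integral]
  congr 1
  · rw [sub_zero]
  · refine intervalIntegral.integral_congr fun x _ => ?_
    rw [fourier_coe_apply, smul_eq_mul]
    congr 2
    have := Real.pi_ne_zero
    push_cast
    field_simp
    ring

theorem Cf_deriv {c c1 : ℝ → ℝ} (h1 : ∀ x, HasDerivAt c (c1 x) x) (hc1 : Continuous c1)
    (hp : ∀ x, c (x + 2 * Real.pi) = c x) {n : ℤ} (hn : n ≠ 0) :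
    Cf c n = 1 / (Complex.I * n) * Cf c1 n := by
  unfold Cf
  rw [fourierCoeffOn_of_hasDerivAt Real.two_pi_pos hn (f' := fun x => (c1 x : ℂ))
    (fun x _ => (h1 x).ofReal_comp)
    ((Complex.continuous_ofReal.comp hc1).intervalIntegrable _ _)]
  have e : c (2 * Real.pi) = c 0 := by simpa using hp 0
  have hn' : (n : ℂ) ≠ 0 := by exact_mod_cast hn
  have hpi : (Real.pi : ℂ) ≠ 0 := by exact_mod_cast Real.pi_ne_zero
  rw [e, sub_self, mul_zero, zero_sub]
  push_cast
  rw [sub_zero]
  have hI := Complex.I_ne_zero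
  field_simp

theorem four_C2 {c c1 c2 : ℝ → ℝ} (h1 : ∀ x, HasDerivAt c (c1 x) x)
    (h2 : ∀ x, HasDerivAt c1 (c2 x) x) (h3 : Continuous c2) (hp : ∀ x, c (x + 2 * Real.pi) = c x)
    (hp1 : ∀ x, c1 (x + 2 * Real.pi) = c1 x) :
    Summable (fun n : ℤ => |(n : ℝ)| * ‖Cf c n‖) ∧ Summable (fun n : ℤ => ‖Cf c n‖) ∧
    ∀ x : ℝ, HasSum (fun n : ℤ => Cf c n * Complex.exp (Complex.I * n * x)) (c x : ℂ) := by
  have hc : Continuous c := continuous_iff_continuousAt.2 fun x => (h1 x).continuousAt
  have hc1 : Continuous c1 := continuous_iff_continuousAt.2 fun x => (h2 x).continuousAt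
  -- the coefficients of the second derivative
  have hW : Summable (fun n : ℤ => ‖Cf c2 n‖ ^ 2) := by
    obtain ⟨B, hB⟩ := (isCompact_Icc (a := (0 : ℝ)) (b := 2 * Real.pi)).exists_bound_of_continuousOn
      h3.continuousOn
    have hL : MemLp (fun x : ℝ => (c2 x : ℂ)) 2 (volume.restrict (Ioc 0 (2 * Real.pi))) := by
      refine MemLp.of_bound (Complex.continuous_ofReal.comp h3).aestronglyMeasurable B ?_
      refine (ae_restrict_iff' measurableSet_Ioc).2 (Eventually.of_forall fun x hx => ?_)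
      rw [Complex.norm_real]
      exact hB x ⟨hx.1.le, hx.2⟩
    exact (hasSum_sq_fourierCoeffOn Real.two_pi_pos hL).summable
  have hCW : ∀ n : ℤ, n ≠ 0 → |(n : ℝ)| * ‖Cf c n‖ ≤ ‖Cf c2 n‖ ^ 2 + 1 / (n : ℝ) ^ 2 := by
    intro n hn
    rw [Cf_deriv h1 hc1 hp hn, Cf_deriv h2 h3 hp1 hn]
    have hn' : (0 : ℝ) < |(n : ℝ)| := abs_pos.2 (by exact_mod_cast hn)
    rw [norm_mul, norm_mul, norm_div, norm_mul, Complex.norm_I, norm_one, one_mul,
      Complex.norm_intCast]
    have e : |(n : ℝ)| * (1 / |(n : ℝ)| * (1 / |(n : ℝ)| * ‖Cf c2 n‖)) =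
        (1 / |(n : ℝ)|) * ‖Cf c2 n‖ := by field_simp
    have e2 : 1 / (n : ℝ) ^ 2 = (1 / |(n : ℝ)|) ^ 2 := by
      rw [div_pow, one_pow, sq_abs]
    rw [e, e2]
    nlinarith [sq_nonneg (1 / |(n : ℝ)| - ‖Cf c2 n‖), sq_nonneg (1 / |(n : ℝ)|), sq_nonneg (‖Cf c2 n‖)]
  have hS1 : Summable (fun n : ℤ => |(n : ℝ)| * ‖Cf c n‖) := by
    have h4 : Summable (fun n : ℤ => ‖Cf c2 n‖ ^ 2 + 1 / (n : ℝ) ^ 2) :=
      hW.add (Real.summable_one_div_int_pow.2 (by norm_num))
    refine Summable.of_nonneg_of_le (fun n => by positivity) (fun n => ?_) h4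
    rcases eq_or_ne n 0 with rfl | hn
    · simp
    · exact hCW n hn
  have hS2 : Summable (fun n : ℤ => ‖Cf c n‖) := by
    have h5 : Summable (fun n : ℤ => if n = 0 then ‖Cf c 0‖ else 0) :=
      summable_of_ne_finset_zero (s := {0}) fun n hn => if_neg (by simpa using hn)
    refine Summable.of_nonneg_of_le (fun n => by positivity) (fun n => ?_) (hS1.add h5)
    rcases eq_or_ne n 0 with rfl | hn
    · simp
    · rw [if_neg hn, add_zero]
      have h6 : (1 : ℝ) ≤ |(n : ℝ)| := by
        have : (1 : ℤ) ≤ |n| := Int.one_le_abs hn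
        exact_mod_cast this
      nlinarith [norm_nonneg (Cf c n)]
  refine ⟨hS1, hS2, ?_⟩
  -- the function on the circle
  have : Fact (0 < 2 * Real.pi) := ⟨Real.two_pi_pos⟩
  have hper : Function.Periodic (fun x : ℝ => (c x : ℂ)) (2 * Real.pi) := fun x => by
    simp only [hp]
  let F : C(AddCircle (2 * Real.pi), ℂ) := ⟨hper.lift, by
    refine (QuotientAddGroup.isQuotientMap_mk _).continuous_iff.2 ?_
    exact Complex.continuous_ofReal.comp hc⟩
  have hF : ∀ x : ℝ, F (x : AddCircle (2 * Real.pi)) = (c x : ℂ) := fun x => rfl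
  have hco : ∀ n : ℤ, fourierCoeff F n = Cf c n := by
    intro n
    rw [fourierCoeff_eq_intervalIntegral F n 0, Cf_eq, zero_add]
    congr 1
    refine intervalIntegral.integral_congr fun x _ => ?_
    rw [fourier_coe_apply, smul_eq_mul, hF]
    congr 2
    have := Real.pi_ne_zero
    push_cast
    field_simp
  have hsum : Summable (fourierCoeff F) := by
    refine Summable.of_norm ?_
    simpa only [hco] using hS2
  intro x
  have h7 := has_pointwise_sum_fourier_series_of_summable hsum (x : AddCircle (2 * Real.pi))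
  rw [hF] at h7
  have e : (fun n : ℤ => fourierCoeff F n • fourier n (x : AddCircle (2 * Real.pi))) =
      fun n : ℤ => Cf c n * Complex.exp (Complex.I * n * x) := by
    funext n
    rw [hco, fourier_coe_apply, smul_eq_mul]
    congr 2
    have := Real.pi_ne_zero
    push_cast
    field_simp
  rwa [e] at h7

theorem cre (z : ℂ) (t : ℝ) : (z * Complex.exp (t * Complex.I)).re =
    z.re * Real.cos t - z.im * Real.sin t := by
  rw [Complex.mul_re, Complex.exp_ofReal_mul_I_re, Complex.exp_ofReal_mul_I_im]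

/-- the cosine series of an even antiperiodic `C²` function -/
theorem four_cos {c c1 c2 : ℝ → ℝ} (h1 : ∀ x, HasDerivAt c (c1 x) x)
    (h2 : ∀ x, HasDerivAt c1 (c2 x) x) (h3 : Continuous c2) (hp : ∀ x, c (x + Real.pi) = - c x)
    (hp1 : ∀ x, c1 (x + Real.pi) = - c1 x) (he : ∀ x, c (-x) = c x) :
    ∃ a : ℕ → ℝ, Summable (fun n : ℕ => (n : ℝ) * |a n|) ∧ (∀ n, Even n → a n = 0) ∧
      (∀ x : ℝ, HasSum (fun n : ℕ => a n * Real.cos (n * x)) (c x)) ∧
      a 1 = (1 / Real.pi) * ∫ x in (0 : ℝ)..2 * Real.pi, Real.cos x * c x := by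
  have hp2 : ∀ x, c (x + 2 * Real.pi) = c x := fun x => by
    rw [two_mul, ← add_assoc, hp, hp, neg_neg]
  have hp3 : ∀ x, c1 (x + 2 * Real.pi) = c1 x := fun x => by
    rw [two_mul, ← add_assoc, hp1, hp1, neg_neg]
  have hc : Continuous c := continuous_iff_continuousAt.2 fun x => (h1 x).continuousAt
  obtain ⟨hS1, hS2, hS3⟩ := four_C2 h1 h2 h3 hp2 hp3
  -- real parts
  have hre : ∀ x : ℝ, HasSum (fun n : ℤ => (Cf c n).re * Real.cos (n * x) -
      (Cf c n).im * Real.sin (n * x)) (c x) := by
    intro x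
    have h4 := Complex.hasSum_re (hS3 x)
    have e : (fun n : ℤ => (Cf c n * Complex.exp (Complex.I * n * x)).re) =
        fun n : ℤ => (Cf c n).re * Real.cos (n * x) - (Cf c n).im * Real.sin (n * x) := by
      funext n
      rw [← cre]
      congr 3
      push_cast
      ring
    rw [e, Complex.ofReal_re] at h4
    exact h4
  have hcos : ∀ x : ℝ, HasSum (fun n : ℤ => (Cf c n).re * Real.cos (n * x)) (c x) := by
    intro x
    have h4 := ((hre x).add (hre (-x))).mul_left (1 / 2)
    rw [he] at h4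
    have e : (fun n : ℤ => 1 / 2 * ((Cf c n).re * Real.cos (n * x) -
      (Cf c n).im * Real.sin (n * x) + ((Cf c n).re * Real.cos (n * -x) -
      (Cf c n).im * Real.sin (n * -x)))) = fun n : ℤ => (Cf c n).re * Real.cos (n * x) := by
      funext n
      rw [mul_neg, Real.cos_neg, Real.sin_neg]
      ring
    rwa [e, show 1 / 2 * (c x + c x) = c x by ring] at h4
  have hodd : ∀ x : ℝ, HasSum (fun n : ℤ => (if Even n then 0 else (Cf c n).re) * Real.cos (n * x))
      (c x) := by
    intro x
    have h4 := ((hcos x).sub (hcos (x + Real.pi))).mul_left (1 / 2)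
    rw [hp] at h4
    have e : (fun n : ℤ => 1 / 2 * ((Cf c n).re * Real.cos (n * x) -
        (Cf c n).re * Real.cos (n * (x + Real.pi)))) =
        fun n : ℤ => (if Even n then 0 else (Cf c n).re) * Real.cos (n * x) := by
      funext n
      rw [mul_add, Real.cos_add_int_mul_pi]
      split_ifs with hn
      · rw [hn.neg_one_zpow]
        ring
      · rw [(Int.not_even_iff_odd.1 hn).neg_one_zpow]
        ring
    rwa [e, show 1 / 2 * (c x - -c x) = c x by ring] at h4
  set b : ℤ → ℝ := fun n => if Even n then 0 else (Cf c n).re with hb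
  have hbn : ∀ n : ℤ, |b n| ≤ ‖Cf c n‖ := by
    intro n
    simp only [hb]
    split_ifs
    · simp
    · exact Complex.abs_re_le_norm _
  refine ⟨fun n => b n + b (-n), ?_, ?_, ?_, ?_⟩
  · have i1 : Summable (fun n : ℕ => |((n : ℤ) : ℝ)| * ‖Cf c (n : ℤ)‖) :=
      hS1.comp_injective Nat.cast_injective
    have i2 : Summable (fun n : ℕ => |((-(n : ℤ) : ℤ) : ℝ)| * ‖Cf c (-(n : ℤ))‖) :=
      hS1.comp_injective (i := fun n : ℕ => -(n : ℤ)) fun a b h => by
        have : (-(a : ℤ)) = -(b : ℤ) := h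
        omega
    refine Summable.of_nonneg_of_le (fun n => by positivity) (fun n => ?_) (i1.add i2)
    have i3 := abs_add_le (b n) (b (-n))
    have i4 := hbn n
    have i5 := hbn (-n)
    push_cast
    rw [abs_neg, Nat.abs_cast]
    have i6 : (0 : ℝ) ≤ n := Nat.cast_nonneg n
    nlinarith
  · intro n hn
    have e1 : b n = 0 := if_pos (by exact_mod_cast hn)
    have e2 : b (-n) = 0 := if_pos (by simpa using hn)
    simp only [e1, e2, add_zero]
  · intro x
    have h4 := (hodd x).nat_add_neg
    have e1 : b 0 = 0 := if_pos (by simp)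
    have e : (fun n : ℕ => b n * Real.cos (((n : ℤ) : ℝ) * x) +
        b (-n) * Real.cos (((-(n : ℤ) : ℤ) : ℝ) * x)) =
        fun n : ℕ => (b n + b (-n)) * Real.cos (n * x) := by
      funext n
      push_cast
      rw [neg_mul, Real.cos_neg]
      ring
    rw [e] at h4
    simpa [e1] using h4
  · have k1 : ∀ n : ℤ, (∀ x : ℝ, Real.cos (n * x) = Real.cos x) → (Cf c n).re =
        (1 / (2 * Real.pi)) * ∫ x in (0 : ℝ)..2 * Real.pi, Real.cos x * c x := by
      intro n hn
      rw [Cf_eq, Complex.smul_re, smul_eq_mul]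
      congr 1
      have h5 : IntervalIntegrable (fun x : ℝ => Complex.exp (-(Complex.I * n * x)) * (c x : ℂ))
          volume 0 (2 * Real.pi) := by
        apply Continuous.intervalIntegrable
        exact (Complex.continuous_exp.comp (by fun_prop)).mul (Complex.continuous_ofReal.comp hc)
      have h6 := Complex.reCLM.intervalIntegral_comp_comm h5
      simp only [Complex.reCLM_apply] at h6
      rw [← h6]
      refine intervalIntegral.integral_congr fun x _ => ?_
      have e1 : Complex.exp (-(Complex.I * n * x)) = Complex.exp (((n * -x : ℝ) : ℂ) * Complex.I) := by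
        congr 1
        push_cast
        ring
      rw [e1, mul_comm, cre, mul_neg, Real.cos_neg, hn, Complex.ofReal_re, Complex.ofReal_im]
      ring
    have e1 : b 1 = (Cf c 1).re := if_neg (by decide)
    have e2 : b (-1) = (Cf c (-1)).re := if_neg (by decide)
    simp only [Nat.cast_one]
    rw [e1, e2, k1 1 (fun x => by simp), k1 (-1) (fun x => by simp)]
    field_simp
    ring

theorem FOUR : S_FOUR := by
  intro p q hp1 hp2 hpq T
  have hq2 : 2 < q := by
    have h1 := hpq.inv_add_inv_eq_one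
    have h2 : 0 < p := by linarith
    have h3 : 0 < q := hpq.symm.pos
    by_contra h
    push Not at h
    have h4 : (1 : ℝ) / 2 < p⁻¹ := by
      rw [← one_div]
      exact one_div_lt_one_div_of_lt h2 hp2
    have h5 : (1 : ℝ) / 2 ≤ q⁻¹ := by
      rw [← one_div]
      exact one_div_le_one_div_of_le h3 h
    linarith
  have hcc : Continuous T.c := continuous_iff_continuousAt.2 fun x => (T.dc x).continuousAt
  have hSc : Continuous T.S := continuous_iff_continuousAt.2 fun x => (T.dS x).continuousAt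
  have hq1 : 1 < q - 1 := by linarith
  obtain ⟨a, ha1, ha2, ha3, ha4⟩ := four_cos (c := T.c)
    (c1 := fun φ => -(T.k * sp (q - 1) (T.S φ)))
    (c2 := fun φ => -(T.k * ((q - 1) * |T.S φ| ^ (q - 1 - 1) * (T.k * sp (p - 1) (T.c φ)))))
    T.dc
    (fun φ => (((sp_deriv hq1 (T.S φ)).comp φ (T.dS φ)).const_mul T.k).neg)
    (by
      refine (continuous_const.mul ((continuous_const.mul
        (hSc.abs.rpow_const fun _ => Or.inr (by linarith))).mul
          (continuous_const.mul ((sp_cont (by linarith)).comp hcc)))).neg)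
    T.cpi
    (fun x => by
      rw [T.Spi]
      have : ∀ y, sp (q - 1) (-y) = - sp (q - 1) y := by
        intro y
        unfold sp
        rw [Real.sign_neg, abs_neg, neg_mul]
      rw [this, mul_neg])
    T.even
  refine ⟨a, ha1, ha2, ha3, ?_⟩
  rw [ha4]
  refine mul_pos (by positivity) ?_
  -- positivity
  have hnn : ∀ x : ℝ, 0 ≤ Real.cos x * T.c x := by
    have h0 : ∀ x : ℝ, |x| ≤ Real.pi / 2 → 0 ≤ Real.cos x * T.c x := by
      intro x hx
      rcases hx.lt_or_eq with h | h
      · exact mul_nonneg (Real.cos_nonneg_of_mem_Icc (abs_le.1 hx)) (T.cpos x h).le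
      · have : Real.cos x = 0 := by
          rw [← Real.cos_abs, h, Real.cos_pi_div_two]
        rw [this, zero_mul]
    have hper : Function.Periodic (fun x => Real.cos x * T.c x) Real.pi := by
      intro x
      simp only
      rw [Real.cos_add_pi, T.cpi]
      ring
    intro x
    obtain ⟨y, hy, e⟩ := hper.exists_mem_Ico Real.pi_pos x (-(Real.pi / 2))
    rw [e]
    apply h0
    rw [abs_le]
    exact ⟨hy.1, by linarith [hy.2]⟩
  refine intervalIntegral.integral_pos Real.two_pi_pos
    ((Real.continuous_cos.mul hcc).continuousOn) (fun x _ => hnn x) ?_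
  refine ⟨0, ⟨le_rfl, Real.two_pi_pos.le⟩, ?_⟩
  rw [Real.cos_zero, one_mul]
  exact T.cpos 0 (by rw [abs_zero]; positivity)

end Run7.h882.LP
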